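import Mathlib
import Pool.Agent.H13.K

set_option autoImplicit false
set_option maxRecDepth 100000

namespace Pool.Agent.Results.MP_b2f6ce_nt.Q2False

open Pool.Agent.H13

/-- Number of solutions `(a, q, p)` with `a, q ≥ 1`, `p ≥ 0`. -/
noncomputable def N (n : ℕ) : ℕ :=
  {t : ℕ × ℕ × ℕ | 1 ≤ t.1 ∧ 1 ≤ t.2.1 ∧
    n = 2 * t.2.2 * t.2.1 * t.1 + t.1 * t.2.1 + t.2.1 + t.2.2}.ncard

/-- The sequence of the problem. -/
noncomputable def a (n : ℕ) : ℕ := N n + 1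

def sols : List (ℕ × ℕ × ℕ) := [(99576, 1, 0), (1229, 27, 1), (307, 108, 1), (1, 24894, 1),
  (655, 8, 9), (4, 314, 39), (17, 30, 97), (9, 6, 913)]

noncomputable def chk : Bool :=
  allBelow 33193 fun p => force p fun p => allBelow ((99577 - p) / (2 * p + 2)) fun q =>
    iff' (Nat.beq (Nat.mod (Nat.sub (Nat.sub 99576 p) q) (Nat.mul (Nat.succ q) (Nat.succ (Nat.mul 2 p)))) 0)
      (decide (((99576 - p - q) / ((q + 1) * (2 * p + 1)), q + 1, p) ∈ sols)) true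

lemma chk_true : chk = true := by decide +kernel

lemma sub : {t : ℕ × ℕ × ℕ | 1 ≤ t.1 ∧ 1 ≤ t.2.1 ∧
    99577 = 2 * t.2.2 * t.2.1 * t.1 + t.1 * t.2.1 + t.2.1 + t.2.2} ⊆ (sols.toFinset : Set _) := by
  rintro ⟨x, q, p⟩ ⟨h1, h2, h3⟩
  simp only at h1 h2 h3
  obtain ⟨q, rfl⟩ : ∃ q', q = q' + 1 := ⟨q - 1, by omega⟩
  obtain ⟨x, rfl⟩ : ∃ x', x = x' + 1 := ⟨x - 1, by omega⟩
  have e : 99576 - p - q = (q + 1) * (2 * p + 1) * (x + 1) := by
    have : 99576 = (q + 1) * (2 * p + 1) * (x + 1) + q + p := by linarith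
    omega
  have hp : p < 33193 := by nlinarith [Nat.zero_le (p * q), Nat.zero_le (p * x), Nat.zero_le (p * q * x), Nat.zero_le (q * x)]
  have hq : q < (99577 - p) / (2 * p + 2) := by
    rw [Nat.lt_iff_add_one_le, Nat.le_div_iff_mul_le (by omega)]
    apply Nat.le_sub_of_add_le
    nlinarith [Nat.zero_le (p * q), Nat.zero_le (p * x), Nat.zero_le (p * q * x), Nat.zero_le (q * x)]
  have c := chk_true
  rw [chk, allBelow_iff] at c
  have c1 := c p hp
  rw [force_eq, allBelow_iff] at c1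
  have c2 := c1 q hq
  have e2 : Nat.beq (Nat.mod (Nat.sub (Nat.sub 99576 p) q)
      (Nat.mul (Nat.succ q) (Nat.succ (Nat.mul 2 p)))) 0 = true := by
    rw [Nat.beq_eq]
    show (99576 - p - q) % ((q + 1) * (2 * p + 1)) = 0
    rw [e, Nat.mul_mod_right]
  rw [e2, iff'_eq, if_pos rfl, e, Nat.mul_div_cancel_left _ (by positivity)] at c2
  simpa using c2

theorem result : ∃ n : ℕ, 1 ≤ n ∧ (a n : ℤ) ≤ ⌊Real.log n⌋ - 2 := by
  refine ⟨99577, by norm_num, ?_⟩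
  have h1 : N 99577 ≤ 8 := by
    refine (Set.ncard_le_ncard sub (Finset.finite_toSet _)).trans ?_
    rw [Set.ncard_coe_finset]
    exact List.toFinset_card_le _
  have h2 : (11 : ℤ) ≤ ⌊Real.log (99577 : ℕ)⌋ := by
    rw [Int.le_floor, Real.le_log_iff_exp_le (by norm_num)]
    have := Real.exp_one_lt_d9
    have e : Real.exp ((11 : ℤ) : ℝ) = Real.exp 1 ^ 11 := by
      rw [← Real.exp_nat_mul]; norm_num
    rw [e]
    calc Real.exp 1 ^ 11 ≤ 2.7182818286 ^ 11 := by gcongr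
      _ ≤ _ := by norm_num
  unfold a
  omega

end Pool.Agent.Results.MP_b2f6ce_nt.Q2False
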